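import Pool.Agent.Helper73.HM.St

/-! # HM, module LS: the canonical order of ordinal definable sets of ordinals is definable -/

namespace Pool.Agent.Helper62.HM.LS

open Ordinal Cardinal ZFSet Order Pool.Agent.Helper73.HODC Pool.Agent.Helper73.HE
  Pool.Agent.Helper73.HM

/-- `key1` is definable -/
theorem dfn_key1 (h : StTD) (i k : ℕ) : Dfn (fun v => key1 (v i) = (v k).rank) := by
  have h1 : ∀ i k : ℕ, Dfn (fun v => ∃ c, Dz (v k).rank c (v i)) := fun i k =>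
    Dfn.ex (Q := fun c v => Dz (v k).rank c (v i)) (h (k + 1) 0 (i + 1))
  have h2 : Dfn (fun v => ∀ d : Ordinal.{0}, (∃ c, Dz d c (v i)) → (v k).rank ≤ d) :=
    Dfn.allO (Q := fun d v => (∃ c, Dz d c (v i)) → (v k).rank ≤ d)
      ((h1 (i + 1) 0).imp (dfn_rank_le (k + 1) 0))
  have h3 : Dfn (fun v => ∀ d : Ordinal.{0}, ¬ ∃ c, Dz d c (v i)) :=
    Dfn.allO (Q := fun d v => ¬ ∃ c, Dz d c (v i)) (h1 (i + 1) 0).not
  refine (((h1 i k).and h2).or (h3.and (dfn_rank_zero k))).congr fun v => ?_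
  exact (sInf_eq_iff {θ | ∃ c, Dz θ c (v i)} (v k).rank).symm

/-- `key2` is definable -/
theorem dfn_key2 (h : StTD) (i k : ℕ) : Dfn (fun v => key2 (v i) = (v k).rank) := by
  have h0 : ∀ i k : ℕ, Dfn (fun v => ∃ θ : Ordinal.{0}, key1 (v i) = θ ∧
      ∃ c, c.rank = (v k).rank ∧ Dz θ c (v i)) := by
    intro i k
    refine Dfn.exO (Q := fun θ v => key1 (v i) = θ ∧ ∃ c, c.rank = (v k).rank ∧ Dz θ c (v i)) ?_
    refine (dfn_key1 h (i + 1) 0).and ?_
    exact Dfn.ex (Q := fun c v => c.rank = (v (k + 1)).rank ∧ Dz (v 0).rank c (v (i + 1)))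
      ((dfn_rank_eq 0 (k + 2)).and (h 1 0 (i + 2)))
  have h1 : ∀ i k : ℕ, Dfn (fun v => ∃ c, c.rank = (v k).rank ∧ Dz (key1 (v i)) c (v i)) :=
    fun i k => (h0 i k).congr fun v => by simp
  have h2 : Dfn (fun v => ∀ d : Ordinal.{0}, (∃ c, c.rank = d ∧ Dz (key1 (v i)) c (v i)) →
      (v k).rank ≤ d) :=
    Dfn.allO (Q := fun d v => (∃ c, c.rank = d ∧ Dz (key1 (v i)) c (v i)) → (v k).rank ≤ d)
      ((h1 (i + 1) 0).imp (dfn_rank_le (k + 1) 0))
  have h3 : Dfn (fun v => ∀ d : Ordinal.{0}, ¬ ∃ c, c.rank = d ∧ Dz (key1 (v i)) c (v i)) :=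
    Dfn.allO (Q := fun d v => ¬ ∃ c, c.rank = d ∧ Dz (key1 (v i)) c (v i)) (h1 (i + 1) 0).not
  refine (((h1 i k).and h2).or (h3.and (dfn_rank_zero k))).congr fun v => ?_
  exact (sInf_eq_iff {n | ∃ c, c.rank = n ∧ Dz (key1 (v i)) c (v i)} (v k).rank).symm

/-- the lexicographic order is definable -/
theorem dfn_lexLt (i j : ℕ) : Dfn (fun v => LexLt (v i) (v j)) := by
  refine Dfn.exO (Q := fun a v => a ∈ st (v j) ∧ a ∉ st (v i) ∧
    ∀ b, b < a → (b ∈ st (v i) ↔ b ∈ st (v j))) ?_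
  refine (dfn_st 0 (j + 1)).and ((dfn_st 0 (i + 1)).not.and ?_)
  refine Dfn.allO (Q := fun b v => b < (v 0).rank →
    (b ∈ st (v (i + 1)) ↔ b ∈ st (v (j + 1)))) ?_
  exact (dfn_rank_lt 0 1).imp ((dfn_st 0 (i + 2)).iff (dfn_st 0 (j + 2)))

/-- comparison of two definable ordinals -/
theorem dfn_lt_of {f g : (ℕ → ZFSet.{0}) → Ordinal.{0}}
    (hf : Dfn (fun v => f (fun n => v (n + 1)) = (v 0).rank))
    (hg : Dfn (fun v => g (fun n => v (n + 1)) = (v 0).rank)) : Dfn (fun v => f v < g v) := by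
  refine (Dfn.exO (Q := fun a v => f v = a ∧ ∃ b, g v = b ∧ a < b) ?_).congr fun v => by simp
  refine hf.and ?_
  refine Dfn.exO (Q := fun b v => g (fun n => v (n + 1)) = b ∧ (v 0).rank < b) ?_
  exact (hg.rename (fun n => if n = 0 then 0 else n + 1)).and (dfn_rank_lt 1 0)

/-- equality of two definable ordinals -/
theorem dfn_eq_of {f g : (ℕ → ZFSet.{0}) → Ordinal.{0}}
    (hf : Dfn (fun v => f (fun n => v (n + 1)) = (v 0).rank))
    (hg : Dfn (fun v => g (fun n => v (n + 1)) = (v 0).rank)) : Dfn (fun v => f v = g v) := by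
  refine (Dfn.exO (Q := fun a v => f v = a ∧ g v = a) (hf.and hg)).congr fun v => ?_
  constructor
  · rintro ⟨a, h1, h2⟩
    rw [h1, h2]
  · intro h
    exact ⟨_, h, rfl⟩

theorem ls (h : StTD) : StLS := by
  intro i j
  have a1 := dfn_key1 h (i + 1) 0
  have a2 := dfn_key1 h (j + 1) 0
  have b1 := dfn_key2 h (i + 1) 0
  have b2 := dfn_key2 h (j + 1) 0
  have c1 : Dfn (fun v => key1 (v i) < key1 (v j)) :=
    dfn_lt_of (f := fun v => key1 (v i)) (g := fun v => key1 (v j)) a1 a2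
  have c2 : Dfn (fun v => key1 (v i) = key1 (v j)) :=
    dfn_eq_of (f := fun v => key1 (v i)) (g := fun v => key1 (v j)) a1 a2
  have c3 : Dfn (fun v => key2 (v i) < key2 (v j)) :=
    dfn_lt_of (f := fun v => key2 (v i)) (g := fun v => key2 (v j)) b1 b2
  have c4 : Dfn (fun v => key2 (v i) = key2 (v j)) :=
    dfn_eq_of (f := fun v => key2 (v i)) (g := fun v => key2 (v j)) b1 b2
  exact c1.or (c2.and (c3.or (c4.and (dfn_lexLt i j))))

end Pool.Agent.Helper62.HM.LS
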